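import Pool.Agent.Helper61.CAR.GoalsQ

/-!
# Packet ESEP of project CAR: the algebra `E` is separable
-/

set_option autoImplicit false

open scoped ComplexOrder Topology
open Filter

namespace Pool.Agent.Helper99.CAR

open Pool.Agent.Helper61.CAR Pool.Agent.Helper34.CAR

theorem esep : S_ESEP := by
  intro Y _ _ S E _ x ρ hE
  have hsep : ∀ n, TopologicalSpace.SeparableSpace (CStarMatrix (S.J n) (S.J n) ℂ) := by
    intro n
    exact inferInstanceAs (TopologicalSpace.SeparableSpace (S.J n → S.J n → ℂ))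
  have hq : ∀ n, ∃ q : ℕ → CStarMatrix (S.J n) (S.J n) ℂ, DenseRange q := by
    intro n
    haveI := hsep n
    exact TopologicalSpace.exists_dense_seq _
  choose q hqd using hq
  obtain ⟨d, hd⟩ := TopologicalSpace.exists_dense_seq Y
  have hel : ∀ i : (Σ N : ℕ, Fin N → ℕ) × ℕ, ∃ e : E,
      (∀ n, x n e = if h : n < i.1.1 then q n (i.1.2 ⟨n, h⟩) else S.Φ n (d i.2)) ∧
        ρ e = d i.2 := by
    intro i
    apply hE.ex
    apply tendsto_const_nhds.congr'
    filter_upwards [eventually_ge_atTop i.1.1] with n hn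
    rw [dif_neg (not_lt.mpr hn), sub_self, norm_zero]
  choose el hel1 hel2 using hel
  have hdr : DenseRange el := by
    rw [Metric.denseRange_iff]
    intro e r hr
    obtain ⟨j, hj⟩ := Metric.denseRange_iff.mp hd (ρ e) (r / 4) (by positivity)
    have hlim := (hE.lim e).eventually (gt_mem_nhds (show (0 : ℝ) < r / 4 by positivity))
    obtain ⟨N, hN⟩ := eventually_atTop.mp hlim
    have hk : ∀ n, ∃ k, dist (x n e) (q n k) < r / 2 := fun n =>
      Metric.denseRange_iff.mp (hqd n) (x n e) (r / 2) (by positivity)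
    choose k hk using hk
    refine ⟨(⟨N, fun n => k n⟩, j), ?_⟩
    rw [dist_eq_norm]
    have hρ : ‖ρ (e - el (⟨N, fun n => k n⟩, j))‖ ≤ r / 2 := by
      rw [map_sub, hel2, ← dist_eq_norm]
      linarith
    refine lt_of_le_of_lt (hE.norm_le _ (r / 2) (by positivity) ?_ hρ) (by linarith)
    intro n
    rw [map_sub, hel1]
    by_cases hn : n < N
    · rw [dif_pos (by exact hn), ← dist_eq_norm]
      exact (hk n).le
    · rw [dif_neg (by exact hn)]
      have h1 : x n e - S.Φ n (d j) = (x n e - S.Φ n (ρ e)) + S.Φ n (ρ e - d j) := by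
        rw [map_sub]; abel
      change ‖x n e - S.Φ n (d j)‖ ≤ r / 2
      rw [h1]
      refine (norm_add_le _ _).trans ?_
      have h2 := hN n (not_lt.mp hn)
      have h3 : ‖S.Φ n (ρ e - d j)‖ ≤ r / 4 := by
        refine (S.contr n _).trans ?_
        rw [← dist_eq_norm]; exact hj.le
      linarith
  exact ⟨Set.range el, Set.countable_range el, hdr⟩

end Pool.Agent.Helper99.CAR
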